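import Pool.Agent.Lib_helper53.MET.Defs2
import Pool.Agent.Lib_helper24.MET.UPA

/-!
# MP_760942_al, block R1d: the module of a presentation (helper27)
-/

set_option autoImplicit false

namespace Pool.Agent.MET

open scoped commutatorElement


/-- derivations which agree on generators are equal -/
theorem r1d_der_ext {G ι B : Type*} [Group G] [AddCommGroup B] (x : ι → G)
    (hx : Subgroup.closure (Set.range x) = ⊤) (τ : G → B →+ B) (D D' : G → B)
    (hD : ∀ g h, D (g * h) = D g + τ g (D h)) (hD' : ∀ g h, D' (g * h) = D' g + τ g (D' h))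
    (hi : ∀ i, D (x i) = D' (x i)) (h1 : ∀ b, τ 1 b = b) : ∀ g, D g = D' g := by
  have key : ∀ g, D g - D' g = 0 := by
    intro g
    have hg : g ∈ Subgroup.closure (Set.range x) := by rw [hx]; trivial
    have h0 : ∀ (E : G → B), (∀ g h, E (g * h) = E g + τ g (E h)) → E 1 = 0 := by
      intro E hE
      have := hE 1 1
      rw [mul_one, h1] at this
      exact left_eq_add.mp this
    have hE : ∀ g h, (D (g * h) - D' (g * h)) = (D g - D' g) + τ g (D h - D' h) := by
      intro g h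
      rw [hD, hD', map_sub]; abel
    have hE1 := h0 (fun g => D g - D' g) hE
    induction hg using Subgroup.closure_induction with
    | mem y hy => obtain ⟨i, rfl⟩ := hy; rw [hi, sub_self]
    | one => exact hE1
    | mul a b _ _ ha hb => rw [hE, ha, hb, map_zero, add_zero]
    | inv a _ ha =>
      have := hE a⁻¹ a
      rw [inv_mul_cancel, ha, map_zero, add_zero] at this
      rw [← this]; exact hE1
  intro g
  exact sub_eq_zero.mp (key g)

/-- additive homomorphisms from a group ring -/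
noncomputable def r1d_za {Q B : Type*} [AddCommGroup B] (F : Q → B) : MonoidAlgebra ℤ Q →+ B :=
  (Finsupp.liftAddHom (fun q => zmultiplesHom B (F q))).comp
    (MonoidAlgebra.coeffAddEquiv (R := ℤ) (M := Q)).toAddMonoidHom

theorem r1d_za_single {Q B : Type*} [AddCommGroup B] (F : Q → B) (q : Q) (z : ℤ) :
    r1d_za F (MonoidAlgebra.single q z) = z • F q := by
  simp [r1d_za]

/-- unipotent action -/
theorem r1d_unip {k : ℕ} {N : Type*} [AddCommGroup N] [Module (L k) N] (e : Fin k → ℤ) (a b : N)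
    (h1 : (xp e : L k) • a = a + b) (h2 : (xp e : L k) • b = b) (t : ℤ) :
    (xp (t • e) : L k) • a = a + t • b := by
  have hinv : (xp (-e) : L k) • a = a - b := by
    have h3 : (xp (-e) : L k) • ((xp e : L k) • b) = b := by
      rw [smul_smul, ← xp_add, neg_add_cancel, xp_zero, one_smul]
    rw [h2] at h3
    have h4 : (xp (-e) : L k) • ((xp e : L k) • a) = a := by
      rw [smul_smul, ← xp_add, neg_add_cancel, xp_zero, one_smul]
    rw [h1, smul_add, h3] at h4
    exact eq_sub_of_add_eq h4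
  have hinv2 : (xp (-e) : L k) • b = b := by
    have h3 : (xp (-e) : L k) • ((xp e : L k) • b) = b := by
      rw [smul_smul, ← xp_add, neg_add_cancel, xp_zero, one_smul]
    rwa [h2] at h3
  induction t using Int.induction_on with
  | zero => rw [zero_smul, xp_zero, one_smul, zero_smul, add_zero]
  | succ t ih =>
    rw [add_smul, one_smul, add_comm, xp_add, mul_smul, ih, smul_add, h1, smul_comm, h2, add_smul,
      one_smul]
    abel
  | pred t ih =>
    rw [sub_smul, one_smul, sub_eq_add_neg, add_comm, xp_add, mul_smul, ih, smul_add, hinv,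
      smul_comm, hinv2, sub_smul, one_smul]
    abel

theorem r1d_fix {k : ℕ} {N : Type*} [AddCommGroup N] [Module (L k) N] (e : Fin k → ℤ) (a : N)
    (h1 : (xp e : L k) • a = a) (t : ℤ) : (xp (t • e) : L k) • a = a := by
  have := r1d_unip e a 0 (by rw [h1, add_zero]) (smul_zero _) t
  simpa using this

/-- exponent vectors with unit coordinates -/
theorem r1d_fr_add {k : ℕ} (a b a' b' : ℤ) (v v' : Fin k → ℤ) :
    fr (a + a') (b + b') (v + v') = fr a b v + fr a' b' v' := by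
  funext i
  refine Fin.cases ?_ (fun i => ?_) i
  · simp [fr]
  · refine Fin.cases ?_ (fun i => ?_) i
    · simp [fr]
    · simp [fr]

theorem r1d_fr_smul {k : ℕ} (t a b : ℤ) (v : Fin k → ℤ) : fr (t * a) (t * b) (t • v) = t • fr a b v := by
  funext i
  refine Fin.cases ?_ (fun i => ?_) i
  · simp [fr]
  · refine Fin.cases ?_ (fun i => ?_) i
    · simp [fr]
    · simp [fr]

theorem r1d_fr_eta {k : ℕ} (v : Fin (k + 2) → ℤ) : fr (v 0) (v 1) (fun i => v i.succ.succ) = v := by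
  funext i
  refine Fin.cases ?_ (fun i => ?_) i
  · simp [fr]
  · refine Fin.cases ?_ (fun i => ?_) i
    · simp [fr]
    · simp [fr]

theorem r1d_fr0 {k : ℕ} (a b : ℤ) (v : Fin k → ℤ) : fr a b v 0 = a := by simp [fr]
theorem r1d_fr1 {k : ℕ} (a b : ℤ) (v : Fin k → ℤ) : fr a b v 1 = b := by
  show fr a b v (Fin.succ 0) = b
  simp [fr]
theorem r1d_frs {k : ℕ} (a b : ℤ) (v : Fin k → ℤ) (i : Fin k) : fr a b v i.succ.succ = v i := by
  simp [fr]



/-- value of a letter -/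
noncomputable def r1d_lt (c : GCode) (p : ℕ × Bool) : MG c :=
  if h : p.1 < c.1 then cond p.2 (PresentedGroup.of ⟨p.1, h⟩) (PresentedGroup.of ⟨p.1, h⟩)⁻¹ else 1

/-- value of a word -/
noncomputable def r1d_wd (c : GCode) (w : Word) : MG c := (w.map (r1d_lt c)).prod

theorem r1d_wd_nil (c : GCode) : r1d_wd c [] = 1 := rfl

theorem r1d_wd_cons (c : GCode) (p : ℕ × Bool) (w : Word) :
    r1d_wd c (p :: w) = r1d_lt c p * r1d_wd c w := by simp [r1d_wd]

theorem r1d_wd_mk' {n : ℕ} (rels : Set (FreeGroup (Fin n))) (w : Word) :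
    PresentedGroup.mk rels (FreeGroup.lift
      (fun i : ℕ => if h : i < n then FreeGroup.of (⟨i, h⟩ : Fin n) else 1) (FreeGroup.mk w)) =
    (w.map (fun p => if h : p.1 < n then cond p.2 (PresentedGroup.of ⟨p.1, h⟩ : PresentedGroup rels)
      (PresentedGroup.of ⟨p.1, h⟩)⁻¹ else 1)).prod := by
  rw [FreeGroup.lift_mk, map_list_prod, List.map_map]
  congr 1
  apply List.map_congr_left
  intro p _
  rcases p with ⟨i, b⟩
  by_cases h : i < n
  · cases b
    · simp only [Function.comp_apply, dif_pos h, cond_false, map_inv]; rfl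
    · simp only [Function.comp_apply, dif_pos h, cond_true]; rfl
  · cases b
    · simp only [Function.comp_apply, dif_neg h, cond_false, map_one, inv_one]
    · simp only [Function.comp_apply, dif_neg h, cond_true, map_one]

theorem r1d_wd_mk (c : GCode) (w : Word) :
    r1d_wd c w = PresentedGroup.mk _ (FreeGroup.lift
          (fun i : ℕ => if h : i < c.1 then FreeGroup.of (⟨i, h⟩ : Fin c.1) else 1)
          (FreeGroup.mk w)) := (r1d_wd_mk' _ w).symm

theorem r1d_rel (c : GCode) (r : Word) (hr : r ∈ c.2) : r1d_wd c r = 1 := by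
  rw [r1d_wd_mk]
  apply PresentedGroup.one_of_mem
  left
  exact ⟨r, hr, rfl⟩

theorem r1d_mon_sh (m : ℕ) (w : Word) : mon (m + 2) (sh 2 w) = fr 0 0 (mon m w) := by
  induction w with
  | nil =>
    funext i
    refine Fin.cases ?_ (fun i => ?_) i
    · simp [mon, sh, fr]
    · refine Fin.cases ?_ (fun i => ?_) i
      · simp [mon, sh, fr]
      · simp [mon, sh, fr]
  | cons p w ih =>
    have h1 : mon (m + 2) (sh 2 (p :: w)) = mon (m + 2) [(p.1 + 2, p.2)] + mon (m + 2) (sh 2 w) :=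
      mon_cons _ _ _
    rw [h1, ih, mon_cons m p w]
    have h2 : mon (m + 2) [(p.1 + 2, p.2)] = fr 0 0 (mon m [p]) := by
      funext i
      refine Fin.cases ?_ (fun i => ?_) i
      · simp [mon, fr]
      · refine Fin.cases ?_ (fun i => ?_) i
        · simp [mon, fr]
        · simp [mon, fr]
    rw [h2, ← r1d_fr_add, add_zero]

theorem r1d_mon_one (m : ℕ) (p : ℕ × Bool) : mon (m + 2) [(p.1 + 2, p.2)] = fr 0 0 (mon m [p]) :=
  r1d_mon_sh m [p]

theorem r1d_pw_add {A : Type*} [CommGroup A] {n s : ℕ} (x : Fin n → A) (v w : Fin (n + s) → ℤ) :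
    ∏ i : Fin n, x i ^ ((v + w) (Fin.castAdd s i)) =
      (∏ i : Fin n, x i ^ (v (Fin.castAdd s i))) * ∏ i : Fin n, x i ^ (w (Fin.castAdd s i)) := by
  simp [zpow_add, Finset.prod_mul_distrib]

theorem r1d_pw_zero {A : Type*} [CommGroup A] {n s : ℕ} (x : Fin n → A) :
    ∏ i : Fin n, x i ^ ((0 : Fin (n + s) → ℤ) (Fin.castAdd s i)) = 1 := by
  simp

theorem r1d_pw_letter {A : Type*} [CommGroup A] {n s : ℕ} (x : Fin n → A) (p : ℕ × Bool) :
    ∏ i : Fin n, x i ^ (mon (n + s) [p] (Fin.castAdd s i)) =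
      if h : p.1 < n then cond p.2 (x ⟨p.1, h⟩) (x ⟨p.1, h⟩)⁻¹ else 1 := by
  by_cases h : p.1 < n
  · rw [dif_pos h, Finset.prod_eq_single (⟨p.1, h⟩ : Fin n)]
    · rcases p with ⟨i, b⟩
      cases b <;> simp [mon]
    · intro i _ hi
      have : p.1 ≠ (i : ℕ) := fun h' => hi (by ext; exact h'.symm)
      simp [mon, this]
    · simp
  · rw [dif_neg h]
    apply Finset.prod_eq_one
    intro i _
    have : p.1 ≠ (i : ℕ) := by have := i.2; omega
    simp [mon, this]

theorem r1d_qv_add (c : GCode) (s : ℕ) (v w : Fin (c.1 + s) → ℤ) :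
    qv c s (v + w) = qv c s v * qv c s w :=
  r1d_pw_add (fun i => Abelianization.of (PresentedGroup.of i : MG c)) v w

theorem r1d_qv_zero (c : GCode) (s : ℕ) : qv c s 0 = 1 :=
  r1d_pw_zero (fun i => Abelianization.of (PresentedGroup.of i : MG c))

theorem r1d_lt_of (c : GCode) (i : ℕ) (h : i < c.1) : r1d_lt c (i, true) = PresentedGroup.of ⟨i, h⟩ := by
  unfold r1d_lt; rw [dif_pos h]; rfl

theorem r1d_lt_inv (c : GCode) (i : ℕ) : r1d_lt c (i, false) = (r1d_lt c (i, true))⁻¹ := by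
  unfold r1d_lt
  by_cases h : i < c.1
  · rw [dif_pos h, dif_pos h]; rfl
  · rw [dif_neg h, dif_neg h, inv_one]

theorem r1d_lt_big (c : GCode) (p : ℕ × Bool) (h : ¬ p.1 < c.1) : r1d_lt c p = 1 := by
  unfold r1d_lt; rw [dif_neg h]

theorem r1d_qv_letter (c : GCode) (s : ℕ) (p : ℕ × Bool) :
    qv c s (mon (c.1 + s) [p]) = Abelianization.of (r1d_lt c p) := by
  refine (r1d_pw_letter (fun i => Abelianization.of (PresentedGroup.of i : MG c)) p).trans ?_
  unfold r1d_lt
  by_cases h : p.1 < c.1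
  · rw [dif_pos h, dif_pos h]
    rcases p with ⟨i, b⟩
    cases b
    · exact (map_inv _ _).symm
    · rfl
  · rw [dif_neg h, dif_neg h, map_one]

theorem r1d_qv_word (c : GCode) (s : ℕ) (w : Word) :
    qv c s (mon (c.1 + s) w) = Abelianization.of (r1d_wd c w) := by
  induction w with
  | nil => rw [mon_nil, r1d_qv_zero, r1d_wd_nil, map_one]
  | cons p w ih => rw [mon_cons, r1d_qv_add, ih, r1d_wd_cons, map_mul, r1d_qv_letter]

/-- the model -/
abbrev r1d_B (c : GCode) := AG (MG c) × ZQ (MG c) × ZQ (MG c)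

/-- group element of the group ring -/
noncomputable def r1d_q {G : Type*} [Group G] (q : Abelianization G) : ZQ G := MonoidAlgebra.single q (1 : ℤ)

theorem r1d_q_mul {G : Type*} [Group G] (q q' : Abelianization G) : r1d_q (q * q') = r1d_q q * r1d_q q' := by
  simp [r1d_q, MonoidAlgebra.single_mul_single]

theorem r1d_q_one {G : Type*} [Group G] : (r1d_q 1 : ZQ G) = 1 := rfl

/-- action on the model -/
noncomputable def r1d_rho (c : GCode) (s : ℕ) (v : Fin (c.1 + s + 2) → ℤ) : r1d_B c →+ r1d_B c where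
  toFun x := (r1d_q (qv c s (fun i => v i.succ.succ)) • x.1,
    r1d_q (qv c s (fun i => v i.succ.succ)) * x.2.1,
    r1d_q (qv c s (fun i => v i.succ.succ)) * (x.2.2 + v 0 • bd (MG c) x.1 + v 1 • x.2.1))
  map_zero' := by simp
  map_add' x y := by
    ext1
    · simp [smul_add]
    · ext1
      · simp [mul_add]
      · simp only [Prod.snd_add, Prod.fst_add, map_add, smul_add]
        rw [← mul_add]
        congr 1
        abel

theorem r1d_rho_zero (c : GCode) (s : ℕ) (x : r1d_B c) : r1d_rho c s 0 x = x := by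
  have h : qv c s (fun i => (0 : Fin (c.1 + s + 2) → ℤ) i.succ.succ) = 1 := r1d_qv_zero c s
  show (_, _, _) = x
  rw [h, r1d_q_one]
  simp

theorem r1d_rho_add (c : GCode) (s : ℕ) (v w : Fin (c.1 + s + 2) → ℤ) (x : r1d_B c) :
    r1d_rho c s (v + w) x = r1d_rho c s v (r1d_rho c s w x) := by
  have h : qv c s (fun i => (v + w) i.succ.succ) =
      qv c s (fun i => v i.succ.succ) * qv c s (fun i => w i.succ.succ) :=
    r1d_qv_add c s (fun i => v i.succ.succ) (fun i => w i.succ.succ)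
  show (_, _, _) = (_, _, _)
  rw [h, r1d_q_mul]
  generalize r1d_q (qv c s (fun i => v i.succ.succ)) = a
  generalize hb : r1d_q (qv c s (fun i => w i.succ.succ)) = b
  ext1
  · show (a * b) • x.1 = a • ((r1d_q (qv c s (fun i => w i.succ.succ))) • x.1)
    rw [hb, mul_smul]
  · ext1
    · show (a * b) * x.2.1 = a * ((r1d_q (qv c s (fun i => w i.succ.succ))) * x.2.1)
      rw [hb, mul_assoc]
    · show (a * b) * (x.2.2 + (v + w) 0 • bd (MG c) x.1 + (v + w) 1 • x.2.1) =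
        a * ((r1d_q (qv c s (fun i => w i.succ.succ))) * (x.2.2 + w 0 • bd (MG c) x.1 + w 1 • x.2.1)
          + v 0 • bd (MG c) ((r1d_q (qv c s (fun i => w i.succ.succ))) • x.1)
          + v 1 • ((r1d_q (qv c s (fun i => w i.succ.succ))) * x.2.1))
      rw [hb, LinearMap.map_smul, smul_eq_mul]
      simp only [Pi.add_apply, add_smul, zsmul_eq_mul]
      ring

theorem r1d_rho_fr (c : GCode) (s : ℕ) (a b : ℤ) (v : Fin (c.1 + s) → ℤ) (x : r1d_B c) :
    r1d_rho c s (fr a b v) x = (r1d_q (qv c s v) • x.1, r1d_q (qv c s v) * x.2.1,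
      r1d_q (qv c s v) * (x.2.2 + a • bd (MG c) x.1 + b • x.2.1)) := by
  have h : (fun i : Fin (c.1 + s) => fr a b v i.succ.succ) = v := by
    funext i; rw [r1d_frs]
  show (_, _, _) = _
  rw [h, r1d_fr0, r1d_fr1]

/-- images of the generators -/
noncomputable def r1d_beta (c : GCode) : ℕ → r1d_B c
  | 0 => (0, 1, 0)
  | 1 => (0, 0, 1)
  | i + 2 => (dd (r1d_lt c (i, true)), 0, 0)

theorem r1d_ev_cons {k b : ℕ} {B : Type*} [AddCommGroup B] (ρ : (Fin k → ℤ) → B →+ B) (β : ℕ → B)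
    (t : Term) (r : Rel) : ev ρ b β (t :: r) =
      (if t.1 < b then sg t.2.1 • ρ (mon k t.2.2) (β t.1) else 0) + ev ρ b β r := by
  simp [ev]

theorem r1d_ev_nil {k b : ℕ} {B : Type*} [AddCommGroup B] (ρ : (Fin k → ℤ) → B →+ B) (β : ℕ → B) :
    ev ρ b β [] = 0 := rfl

theorem r1d_ev_pre {k b : ℕ} {B : Type*} [AddCommGroup B] (ρ : (Fin k → ℤ) → B →+ B) (β : ℕ → B)
    (ha : ∀ v w x, ρ (v + w) x = ρ v (ρ w x)) (p : ℕ × Bool) (r : Rel) :
    ev ρ b β (r.map (fun t => (t.1, t.2.1, p :: t.2.2))) = ρ (mon k [p]) (ev ρ b β r) := by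
  induction r with
  | nil => simp [ev]
  | cons t r ih =>
    rw [List.map_cons, r1d_ev_cons, ih, r1d_ev_cons, map_add]
    congr 1
    simp only
    split_ifs with h
    · rw [mon_cons, ha, map_zsmul]
    · rw [map_zero]

theorem r1d_dd_one {G : Type*} [Group G] : dd (1 : G) = 0 := by
  have h := dd_mul (1 : G) 1
  rw [mul_one] at h
  have hq : (qq (1 : G)) = 1 := by simp [qq]; rfl
  rw [hq, one_smul] at h
  exact left_eq_add.mp h

theorem r1d_qq {G : Type*} [Group G] (g : G) : qq g = r1d_q (Abelianization.of g) := rfl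

theorem r1d_dd_inv {G : Type*} [Group G] (g : G) : dd g⁻¹ = - (r1d_q (Abelianization.of g⁻¹) • dd g) := by
  have h := dd_mul g⁻¹ g
  rw [inv_mul_cancel, r1d_dd_one, r1d_qq] at h
  exact eq_neg_of_add_eq_zero_left h.symm

theorem r1d_ev_fox (c : GCode) (s : ℕ) (w : Word) :
    ev (r1d_rho c s) (c.1 + 2) (r1d_beta c) (fox w) = (dd (r1d_wd c w), 0, 0) := by
  induction w with
  | nil => rw [fox, r1d_ev_nil, r1d_wd_nil, r1d_dd_one]; rfl
  | cons p w ih =>
    rw [fox, r1d_ev_cons, r1d_ev_pre _ _ (r1d_rho_add c s), ih, r1d_mon_one, r1d_rho_fr,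
      r1d_qv_letter, r1d_wd_cons, dd_mul, r1d_qq]
    have key : (if ((if p.2 then (p.1 + 2, true, []) else
        (p.1 + 2, false, [(p.1 + 2, false)]) : Term)).1 < c.1 + 2 then
        sg ((if p.2 then (p.1 + 2, true, []) else
        (p.1 + 2, false, [(p.1 + 2, false)]) : Term)).2.1 • (r1d_rho c s)
          (mon (c.1 + s + 2) ((if p.2 then (p.1 + 2, true, []) else
        (p.1 + 2, false, [(p.1 + 2, false)]) : Term)).2.2)
          (r1d_beta c ((if p.2 then (p.1 + 2, true, []) else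
        (p.1 + 2, false, [(p.1 + 2, false)]) : Term)).1) else 0) = ((dd (r1d_lt c p), 0, 0) : r1d_B c) := by
      rcases p with ⟨i, b⟩
      by_cases h : i < c.1
      · cases b
        · simp only [Bool.false_eq_true, if_false]
          rw [if_pos (by omega), r1d_mon_one (c.1 + s) (i, false), r1d_rho_fr, r1d_qv_letter]
          rw [r1d_lt_inv, r1d_dd_inv, r1d_beta]
          simp [sg]
        · simp only [if_true]
          rw [if_pos (by omega), mon_nil, r1d_rho_zero, r1d_beta]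
          simp [sg]
      · have h1 : r1d_lt c (i, b) = 1 := r1d_lt_big c (i, b) h
        rw [h1, r1d_dd_one, if_neg]
        · rfl
        · cases b <;> simp <;> omega
    rw [key]
    simp

theorem r1d_ev_word (c : GCode) (s : ℕ) (w : Word) (x : r1d_B c) (h : r1d_wd c w = 1) :
    r1d_rho c s (mon (c.1 + s + 2) (sh 2 w)) x = x := by
  rw [r1d_mon_sh, r1d_rho_fr, r1d_qv_word, h, map_one, r1d_q_one]
  simp

theorem r1d_beta2 (c : GCode) (i : ℕ) (h : i < c.1) :
    r1d_beta c (i + 2) = (dd (PresentedGroup.of ⟨i, h⟩ : MG c), 0, 0) := by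
  rw [r1d_beta, r1d_lt_of c i h]

theorem r1d_eqn (c : GCode) (s j i m : ℕ) (hi : i < c.1 + 2) :
    ev (r1d_rho c s) (c.1 + 2) (r1d_beta c) (eqn j i m) =
      r1d_rho c s (mon (c.1 + s + 2) [(j, true)]) (r1d_beta c i) - m • r1d_beta c i :=
  ev_eqn (r1d_rho c s) (r1d_beta c) (r1d_rho_zero c s) j i m hi

theorem r1d_hy1 (m : ℕ) : mon (m + 2) [(0, true)] = fr 1 0 0 := by
  funext i
  refine Fin.cases ?_ (fun i => ?_) i
  · simp [mon, fr]
  · refine Fin.cases ?_ (fun i => ?_) i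
    · simp [mon, fr]
    · simp [mon, fr]

theorem r1d_hy2 (m : ℕ) : mon (m + 2) [(1, true)] = fr 0 1 0 := by
  funext i
  refine Fin.cases ?_ (fun i => ?_) i
  · simp [mon, fr]
  · refine Fin.cases ?_ (fun i => ?_) i
    · simp [mon, fr]
    · simp [mon, fr]

theorem r1d_hR1 (c : GCode) (s : ℕ) (x : r1d_B c) :
    r1d_rho c s (mon (c.1 + s + 2) [(0, true)]) x = (x.1, x.2.1, x.2.2 + bd (MG c) x.1) := by
  rw [r1d_hy1, r1d_rho_fr, r1d_qv_zero, r1d_q_one, one_smul, one_mul, one_mul, one_smul, zero_smul,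
    add_zero]

theorem r1d_hR2 (c : GCode) (s : ℕ) (x : r1d_B c) :
    r1d_rho c s (mon (c.1 + s + 2) [(1, true)]) x = (x.1, x.2.1, x.2.2 + x.2.1) := by
  rw [r1d_hy2, r1d_rho_fr, r1d_qv_zero, r1d_q_one, one_smul, one_mul, one_mul, one_smul, zero_smul,
    add_zero]

theorem r1d_rel2 (c : GCode) (s : ℕ) (w : Word) (hw : w ∈ c.2) (i : ℕ) (hi : i < c.1 + 2) :
    ev (r1d_rho c s) (c.1 + 2) (r1d_beta c) [(i, true, sh 2 w), (i, false, [])] = 0 := by
  rw [r1d_ev_cons, r1d_ev_cons, r1d_ev_nil, if_pos hi, if_pos hi,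
    r1d_ev_word c s w _ (r1d_rel c w hw), mon_nil, r1d_rho_zero, add_zero]
  show (1 : ℤ) • r1d_beta c i + (-1 : ℤ) • r1d_beta c i = 0
  rw [one_smul, neg_smul, one_smul, add_neg_cancel]

theorem r1d_rel3 (c : GCode) (s j i : ℕ) (hi : i < c.1 + 2) :
    ev (r1d_rho c s) (c.1 + 2) (r1d_beta c) (eqn (c.1 + j + 2) i 1) = 0 := by
  rw [r1d_eqn c s _ _ _ hi]
  have h1 : mon (c.1 + s + 2) [(c.1 + j + 2, true)] = fr 0 0 (mon (c.1 + s) [(c.1 + j, true)]) :=
    r1d_mon_one (c.1 + s) (c.1 + j, true)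
  rw [h1, r1d_rho_fr, r1d_qv_letter, r1d_lt_big _ _ (Nat.not_lt.2 (Nat.le_add_right _ _)), map_one, r1d_q_one,
    one_smul, one_mul, one_mul, zero_smul, zero_smul, add_zero, add_zero, one_smul]
  exact sub_self _

theorem r1d_aux {A R : Type*} [AddCommGroup A] [Ring R] (a : A) (q : R) :
    sg true • ((a, 0, q - 1) : A × R × R) + (sg false • (a, 0, 0) + (sg false • (0, 0, q) +
      (sg true • (0, 0, 1) + 0))) = 0 := by
  simp [sg]

theorem r1d_ev4 {k b : ℕ} {B : Type*} [AddCommGroup B] (ρ : (Fin k → ℤ) → B →+ B) (β : ℕ → B)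
    (t1 t2 t3 t4 : Term) (h1 : t1.1 < b) (h2 : t2.1 < b) (h3 : t3.1 < b) (h4 : t4.1 < b)
    (x1 x2 x3 x4 : B) (e1 : ρ (mon k t1.2.2) (β t1.1) = x1) (e2 : ρ (mon k t2.2.2) (β t2.1) = x2)
    (e3 : ρ (mon k t3.2.2) (β t3.1) = x3) (e4 : ρ (mon k t4.2.2) (β t4.1) = x4) :
    ev ρ b β [t1, t2, t3, t4] =
      sg t1.2.1 • x1 + (sg t2.2.1 • x2 + (sg t3.2.1 • x3 + (sg t4.2.1 • x4 + 0))) := by
  rw [r1d_ev_cons, r1d_ev_cons, r1d_ev_cons, r1d_ev_cons, r1d_ev_nil, if_pos h1, if_pos h2,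
    if_pos h3, if_pos h4, e1, e2, e3, e4]

theorem r1d_e1 (c : GCode) (s i : ℕ) :
    r1d_rho c s (mon (c.1 + s + 2) [(0, true)]) (r1d_beta c (i + 2)) =
      (dd (r1d_lt c (i, true)), 0, qq (r1d_lt c (i, true)) - 1) := by
  rw [r1d_hR1 c s (r1d_beta c (i + 2)), r1d_beta, bd_dd, zero_add]

theorem r1d_e2 (c : GCode) (s i : ℕ) :
    r1d_rho c s (mon (c.1 + s + 2) [(i + 2, true)]) (r1d_beta c 1) =
      (0, 0, qq (r1d_lt c (i, true))) := by
  rw [r1d_mon_one (c.1 + s) (i, true), r1d_rho_fr, r1d_qv_letter, r1d_beta, smul_zero, mul_zero,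
      map_zero, smul_zero, add_zero, add_zero, mul_one, r1d_qq]

theorem r1d_e3 (c : GCode) (s : ℕ) (x : r1d_B c) : r1d_rho c s (mon (c.1 + s + 2) []) x = x := by
  rw [mon_nil, r1d_rho_zero]

theorem r1d_rel4 (c : GCode) (s i : ℕ) (hi : i < c.1) :
    ev (r1d_rho c s) (c.1 + 2) (r1d_beta c)
      [(i + 2, true, [(0, true)]), (i + 2, false, []), (1, false, [(i + 2, true)]), (1, true, [])] = 0 := by
  refine (r1d_ev4 (r1d_rho c s) (r1d_beta c) (i + 2, true, [(0, true)]) (i + 2, false, [])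
    (1, false, [(i + 2, true)]) (1, true, []) (show i + 2 < c.1 + 2 by omega)
    (show i + 2 < c.1 + 2 by omega) (show 1 < c.1 + 2 by omega) (show 1 < c.1 + 2 by omega)
    _ _ _ _ (r1d_e1 c s i) (r1d_e3 c s _) (r1d_e2 c s i) (r1d_e3 c s _)).trans ?_
  exact r1d_aux _ _

theorem r1d_rel5 (c : GCode) (s i : ℕ) (hi : i < c.1) :
    ev (r1d_rho c s) (c.1 + 2) (r1d_beta c) (eqn 1 (i + 2) 1) = 0 := by
  rw [r1d_eqn c s _ _ _ (show i + 2 < c.1 + 2 by omega), r1d_hR2, r1d_beta, one_smul, add_zero, sub_self]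

theorem r1d_rel6 (c : GCode) (s : ℕ) :
    ev (r1d_rho c s) (c.1 + 2) (r1d_beta c) (eqn 0 0 1) = 0 := by
  rw [r1d_eqn c s _ _ _ (show 0 < c.1 + 2 by omega), r1d_hR1, r1d_beta, one_smul, map_zero, add_zero, sub_self]

theorem r1d_rel7 (c : GCode) (s : ℕ) :
    ev (r1d_rho c s) (c.1 + 2) (r1d_beta c) (eqn 0 1 1) = 0 := by
  rw [r1d_eqn c s _ _ _ (show 1 < c.1 + 2 by omega), r1d_hR1, r1d_beta, one_smul, map_zero, add_zero, sub_self]

theorem r1d_rel8 (c : GCode) (s : ℕ) :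
    ev (r1d_rho c s) (c.1 + 2) (r1d_beta c) [(0, true, [(1, true)]), (0, false, []), (1, false, [])] = 0 := by
  rw [r1d_ev_cons, r1d_ev_cons, r1d_ev_cons, r1d_ev_nil,
    if_pos (show 0 < c.1 + 2 by omega), if_pos (show 0 < c.1 + 2 by omega),
    if_pos (show 1 < c.1 + 2 by omega), r1d_hR2, mon_nil,
    r1d_rho_zero, r1d_rho_zero, r1d_beta, r1d_beta]
  simp [sg]

theorem r1d_rel9 (c : GCode) (s : ℕ) :
    ev (r1d_rho c s) (c.1 + 2) (r1d_beta c) (eqn 1 1 1) = 0 := by
  rw [r1d_eqn c s _ _ _ (show 1 < c.1 + 2 by omega), r1d_hR2, r1d_beta, one_smul, add_zero, sub_self]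

theorem r1d_up (c : GCode) (s : ℕ) :
    ∃ f : PM (c.1 + s + 2) (c.1 + 2) (metFr c s).2.2 →+ r1d_B c,
      (∀ i, i < c.1 + 2 → f (gen i) = r1d_beta c i) ∧
      ∀ v m, f (xp v • m) = r1d_rho c s v (f m) := by
  apply up (r1d_rho c s) (r1d_rho_zero c s) (r1d_rho_add c s) (r1d_beta c)
  intro r hr
  simp only [metFr, List.mem_append, List.mem_map, List.mem_flatMap, List.mem_range,
    List.mem_cons, List.not_mem_nil, or_false] at hr
  rcases hr with ((((((⟨w, hw, rfl⟩) | ⟨w, hw, i, hi, rfl⟩) | ⟨j, hj, i, hi, rfl⟩) | ⟨i, hi, rfl⟩) | ⟨i, hi, rfl⟩) | rfl | rfl | rfl | rfl)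
  · rw [r1d_ev_fox, r1d_rel c w hw, r1d_dd_one]; rfl
  · exact r1d_rel2 c s w hw i hi
  · exact r1d_rel3 c s j i hi
  · exact r1d_rel4 c s i hi
  · exact r1d_rel5 c s i hi
  · exact r1d_rel6 c s
  · exact r1d_rel7 c s
  · exact r1d_rel8 c s
  · exact r1d_rel9 c s



/-- the presentation module -/
abbrev r1d_N (c : GCode) (s : ℕ) := PM (c.1 + s + 2) (c.1 + 2) (metFr c s).2.2

/-- the holomorph of the presentation module -/
abbrev r1d_H (c : GCode) (s : ℕ) :=
  Multiplicative (r1d_N c s) ⋊[MonoidHom.id (MulAut (Multiplicative (r1d_N c s)))]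
    MulAut (Multiplicative (r1d_N c s))

/-- exponent vector of the `i`-th variable -/
def r1d_u (c : GCode) (s : ℕ) (i : Fin c.1) : Fin (c.1 + s + 2) → ℤ :=
  mon (c.1 + s + 2) [((i : ℕ) + 2, true)]

/-- image of a generator in the holomorph -/
noncomputable def r1d_h (c : GCode) (s : ℕ) (i : Fin c.1) : r1d_H c s :=
  ⟨Multiplicative.ofAdd (gen ((i : ℕ) + 2)), acM (c.1 + s + 2) (r1d_N c s) (Multiplicative.ofAdd (r1d_u c s i))⟩

theorem r1d_right (c : GCode) (s : ℕ) (w : FreeGroup (Fin c.1)) :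
    (FreeGroup.lift (r1d_h c s) w).right =
      acM (c.1 + s + 2) (r1d_N c s)
        (FreeGroup.lift (fun i => Multiplicative.ofAdd (r1d_u c s i)) w) := by
  have : SemidirectProduct.rightHom.comp (FreeGroup.lift (r1d_h c s)) =
      (acM (c.1 + s + 2) (r1d_N c s)).comp
        (FreeGroup.lift (fun i => Multiplicative.ofAdd (r1d_u c s i))) := by
    apply FreeGroup.ext_hom
    intro i
    simp only [MonoidHom.comp_apply, FreeGroup.lift_apply_of, r1d_h]
    rfl
  exact DFunLike.congr_fun this w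

theorem r1d_ac (c : GCode) (s : ℕ) (v : Multiplicative (Fin (c.1 + s + 2) → ℤ))
    (m : Multiplicative (r1d_N c s)) : acM (c.1 + s + 2) (r1d_N c s) v m =
      Multiplicative.ofAdd ((xp (Multiplicative.toAdd v) : L (c.1 + s + 2)) • Multiplicative.toAdd m) := rfl

/-- relation in the module -/
theorem r1d_eqnN (c : GCode) (s j i m : ℕ) (h : eqn j i m ∈ (metFr c s).2.2) :
    (xp (mon (c.1 + s + 2) [(j, true)]) : L (c.1 + s + 2)) • (gen i : r1d_N c s) = m • gen i :=
  pm_eqn j i m h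

/-- membership of the relations -/
theorem r1d_mem3 (c : GCode) (s j i : ℕ) (hj : j < s) (hi : i < c.1 + 2) :
    eqn (c.1 + j + 2) i 1 ∈ (metFr c s).2.2 := by
  simp only [metFr, List.mem_append, List.mem_map, List.mem_flatMap, List.mem_range,
    List.mem_cons, List.not_mem_nil, or_false]
  exact Or.inl (Or.inl (Or.inl (Or.inr ⟨j, hj, i, hi, rfl⟩)))

theorem r1d_mem2 (c : GCode) (s : ℕ) (w : Word) (hw : w ∈ c.2) (i : ℕ) (hi : i < c.1 + 2) :
    [(i, true, sh 2 w), (i, false, [])] ∈ (metFr c s).2.2 := by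
  simp only [metFr, List.mem_append, List.mem_map, List.mem_flatMap, List.mem_range,
    List.mem_cons, List.not_mem_nil, or_false]
  exact Or.inl (Or.inl (Or.inl (Or.inl (Or.inr ⟨w, hw, i, hi, rfl⟩))))

theorem r1d_mem1 (c : GCode) (s : ℕ) (w : Word) (hw : w ∈ c.2) : fox w ∈ (metFr c s).2.2 := by
  simp only [metFr, List.mem_append, List.mem_map, List.mem_flatMap, List.mem_range,
    List.mem_cons, List.not_mem_nil, or_false]
  exact Or.inl (Or.inl (Or.inl (Or.inl (Or.inl ⟨w, hw, rfl⟩))))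

theorem r1d_mem4 (c : GCode) (s i : ℕ) (hi : i < c.1) :
    [(i + 2, true, [(0, true)]), (i + 2, false, []), (1, false, [(i + 2, true)]), (1, true, [])] ∈
      (metFr c s).2.2 := by
  simp only [metFr, List.mem_append, List.mem_map, List.mem_flatMap, List.mem_range,
    List.mem_cons, List.not_mem_nil, or_false]
  exact Or.inl (Or.inl (Or.inr ⟨i, hi, rfl⟩))

theorem r1d_mem5 (c : GCode) (s i : ℕ) (hi : i < c.1) : eqn 1 (i + 2) 1 ∈ (metFr c s).2.2 := by
  simp only [metFr, List.mem_append, List.mem_map, List.mem_flatMap, List.mem_range,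
    List.mem_cons, List.not_mem_nil, or_false]
  exact Or.inl (Or.inr ⟨i, hi, rfl⟩)

theorem r1d_mem6 (c : GCode) (s : ℕ) (r : Rel)
    (hr : r = eqn 0 0 1 ∨ r = eqn 0 1 1 ∨ r = [(0, true, [(1, true)]), (0, false, []), (1, false, [])] ∨
      r = eqn 1 1 1) : r ∈ (metFr c s).2.2 := by
  simp only [metFr, List.mem_append, List.mem_map, List.mem_flatMap, List.mem_range,
    List.mem_cons, List.not_mem_nil, or_false]
  exact Or.inr hr

/-- an element acts trivially if it fixes the generators -/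
theorem r1d_triv (c : GCode) (s : ℕ) (u : Fin (c.1 + s + 2) → ℤ)
    (h : ∀ i, i < c.1 + 2 → (xp u : L (c.1 + s + 2)) • (gen i : r1d_N c s) = gen i) (m : r1d_N c s) :
    (xp u : L (c.1 + s + 2)) • m = m := by
  have : (DistribSMul.toAddMonoidHom (r1d_N c s) (xp u : L (c.1 + s + 2))) = AddMonoidHom.id _ := by
    apply pm_ext
    intro v i hi
    show (xp u : L (c.1 + s + 2)) • ((xp v : L (c.1 + s + 2)) • (gen i : r1d_N c s)) = xp v • gen i
    rw [smul_comm, h i hi]
  exact DFunLike.congr_fun this m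

/-- the extra variables act trivially -/
theorem r1d_extra (c : GCode) (s : ℕ) (p : ℕ × Bool) (hp : ¬ p.1 < c.1) (m : r1d_N c s) :
    (xp (mon (c.1 + s + 2) [(p.1 + 2, p.2)]) : L (c.1 + s + 2)) • m = m := by
  by_cases h : p.1 < c.1 + s
  · obtain ⟨j, hj⟩ : ∃ j, p.1 = c.1 + j := ⟨p.1 - c.1, by omega⟩
    have h1 : ∀ m : r1d_N c s, (xp (mon (c.1 + s + 2) [(p.1 + 2, true)]) : L (c.1 + s + 2)) • m = m := by
      apply r1d_triv
      intro i hi
      rw [hj, r1d_eqnN c s (c.1 + j + 2) i 1 (r1d_mem3 c s j i (by omega) hi), one_smul]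
    rcases p with ⟨a, b⟩
    cases b
    · have h2 : mon (c.1 + s + 2) [(a + 2, false)] = - mon (c.1 + s + 2) [(a + 2, true)] := by
        funext i
        by_cases h3 : a + 2 = (i : ℕ) <;> simp [mon, h3]
      show (xp (mon (c.1 + s + 2) [(a + 2, false)]) : L (c.1 + s + 2)) • m = m
      rw [h2]
      conv_lhs => rw [← h1 m]
      rw [smul_smul, ← xp_add, neg_add_cancel, xp_zero, one_smul]
    · exact h1 m
  · have h2 : mon (c.1 + s + 2) [(p.1 + 2, p.2)] = 0 := by
      funext i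
      have : p.1 + 2 ≠ (i : ℕ) := by have := i.2; omega
      simp [mon, this]
    rw [h2, xp_zero, one_smul]

/-- the word of a code in the free group -/
def r1d_F (c : GCode) (w : Word) : FreeGroup (Fin c.1) :=
  FreeGroup.lift (fun i : ℕ => if h : i < c.1 then FreeGroup.of (⟨i, h⟩ : Fin c.1) else 1)
    (FreeGroup.mk w)

theorem r1d_F_nil (c : GCode) : r1d_F c [] = 1 := by
  unfold r1d_F; rw [FreeGroup.lift_mk]; rfl

theorem r1d_F_cons (c : GCode) (p : ℕ × Bool) (w : Word) : r1d_F c (p :: w) = r1d_F c [p] * r1d_F c w := by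
  unfold r1d_F; rw [FreeGroup.lift_mk, FreeGroup.lift_mk, FreeGroup.lift_mk]; simp

theorem r1d_F_big (c : GCode) (p : ℕ × Bool) (h : ¬ p.1 < c.1) : r1d_F c [p] = 1 := by
  unfold r1d_F; rw [FreeGroup.lift_mk]
  rcases p with ⟨i, b⟩
  have h' : ¬ i < c.1 := h
  cases b <;> simp [h']

theorem r1d_F_true (c : GCode) (i : ℕ) (h : i < c.1) : r1d_F c [(i, true)] = FreeGroup.of ⟨i, h⟩ := by
  unfold r1d_F; rw [FreeGroup.lift_mk]; simp [h]

theorem r1d_F_false (c : GCode) (i : ℕ) (h : i < c.1) : r1d_F c [(i, false)] = (FreeGroup.of ⟨i, h⟩)⁻¹ := by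
  unfold r1d_F; rw [FreeGroup.lift_mk]; simp [h]

/-- evaluation of a relation in the module -/
noncomputable def r1d_nu (c : GCode) (s : ℕ) (r : Rel) : r1d_N c s :=
  (r.map (fun t => sg t.2.1 • ((xp (mon (c.1 + s + 2) t.2.2) : L (c.1 + s + 2)) • (gen t.1 : r1d_N c s)))).sum

theorem r1d_nu_rel (c : GCode) (s : ℕ) (r : Rel) (hr : r ∈ (metFr c s).2.2) : r1d_nu c s r = 0 :=
  pm_rel r hr

theorem r1d_nu_cons (c : GCode) (s : ℕ) (t : Term) (r : Rel) : r1d_nu c s (t :: r) =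
    sg t.2.1 • ((xp (mon (c.1 + s + 2) t.2.2) : L (c.1 + s + 2)) • (gen t.1 : r1d_N c s)) + r1d_nu c s r := by
  simp [r1d_nu]

theorem r1d_nu_nil (c : GCode) (s : ℕ) : r1d_nu c s [] = 0 := rfl

theorem r1d_nu_pre (c : GCode) (s : ℕ) (p : ℕ × Bool) (r : Rel) :
    r1d_nu c s (r.map (fun t => (t.1, t.2.1, p :: t.2.2))) =
      (xp (mon (c.1 + s + 2) [p]) : L (c.1 + s + 2)) • r1d_nu c s r := by
  induction r with
  | nil => rw [List.map_nil, r1d_nu_nil, smul_zero]
  | cons t r ih =>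
    rw [List.map_cons, r1d_nu_cons, ih, r1d_nu_cons, smul_add]
    congr 1
    simp only
    rw [mon_cons, xp_add, mul_smul, smul_comm]

/-- action of a word -/
theorem r1d_act_word (c : GCode) (s : ℕ) (w : Word) (m : Multiplicative (r1d_N c s)) :
    (FreeGroup.lift (r1d_h c s) (r1d_F c w)).right m =
      Multiplicative.ofAdd ((xp (mon (c.1 + s + 2) (sh 2 w)) : L (c.1 + s + 2)) • Multiplicative.toAdd m) := by
  induction w generalizing m with
  | nil =>
    rw [r1d_F_nil, map_one]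
    have : mon (c.1 + s + 2) (sh 2 []) = 0 := rfl
    rw [this, xp_zero, one_smul]
    rfl
  | cons p w ih =>
    rw [r1d_F_cons, map_mul, SemidirectProduct.mul_right, MulAut.mul_apply, ih]
    have h1 : mon (c.1 + s + 2) (sh 2 (p :: w)) =
        mon (c.1 + s + 2) [(p.1 + 2, p.2)] + mon (c.1 + s + 2) (sh 2 w) := mon_cons _ _ _
    rw [h1, xp_add, mul_smul, r1d_right, r1d_ac]
    congr 1
    by_cases h : p.1 < c.1
    · rcases p with ⟨i, b⟩
      cases b
      · rw [r1d_F_false c i h, map_inv, FreeGroup.lift_apply_of]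
        congr 2
        funext j
        have : Multiplicative.toAdd (Multiplicative.ofAdd (r1d_u c s ⟨i, h⟩))⁻¹ = - r1d_u c s ⟨i, h⟩ := rfl
        rw [this]
        by_cases h3 : i + 2 = (j : ℕ) <;> simp [r1d_u, mon, h3]
      · rw [r1d_F_true c i h, FreeGroup.lift_apply_of]
        rfl
    · rw [r1d_F_big c p h, map_one, r1d_extra c s p h]
      have : Multiplicative.toAdd (1 : Multiplicative (Fin (c.1 + s + 2) → ℤ)) = 0 := rfl
      rw [this, xp_zero, one_smul]
      rfl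

/-- the left component of a word -/
theorem r1d_left_word (c : GCode) (s : ℕ) (w : Word) :
    (FreeGroup.lift (r1d_h c s) (r1d_F c w)).left = Multiplicative.ofAdd (r1d_nu c s (fox w)) := by
  induction w with
  | nil => rw [r1d_F_nil, map_one]; rfl
  | cons p w ih =>
    rw [r1d_F_cons, map_mul, SemidirectProduct.mul_left, ih]
    have h1 := r1d_act_word c s [p] (Multiplicative.ofAdd (r1d_nu c s (fox w)))
    have h1' : (MonoidHom.id (MulAut (Multiplicative (r1d_N c s))))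
        ((FreeGroup.lift (r1d_h c s) (r1d_F c [p])).right) (Multiplicative.ofAdd (r1d_nu c s (fox w))) =
        Multiplicative.ofAdd ((xp (mon (c.1 + s + 2) (sh 2 [p])) : L (c.1 + s + 2)) •
          (r1d_nu c s (fox w))) := h1
    rw [h1']
    have h2 : r1d_nu c s (fox (p :: w)) =
        r1d_nu c s [if p.2 then (p.1 + 2, true, []) else (p.1 + 2, false, [(p.1 + 2, false)])] +
        (xp (mon (c.1 + s + 2) (sh 2 [p])) : L (c.1 + s + 2)) • (r1d_nu c s (fox w)) := by
      rw [fox, r1d_nu_cons, r1d_nu_pre, r1d_nu_cons, r1d_nu_nil, add_zero]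
      rfl
    rw [h2, ofAdd_add]
    congr 1
    by_cases h : p.1 < c.1
    · rcases p with ⟨i, b⟩
      cases b
      · rw [r1d_F_false c i h, map_inv, FreeGroup.lift_apply_of, SemidirectProduct.inv_left]
        simp only [Bool.false_eq_true, if_false]
        rw [r1d_nu_cons, r1d_nu_nil, add_zero]
        show (r1d_h c s ⟨i, h⟩).right⁻¹ ((r1d_h c s ⟨i, h⟩).left)⁻¹ = _
        have h3 : (r1d_h c s ⟨i, h⟩).right⁻¹ =
            acM (c.1 + s + 2) (r1d_N c s) (Multiplicative.ofAdd (r1d_u c s ⟨i, h⟩))⁻¹ := by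
          rw [map_inv]; rfl
        rw [h3, r1d_ac]
        have h4 : mon (c.1 + s + 2) [(i + 2, false)] = - r1d_u c s ⟨i, h⟩ := by
          funext j
          by_cases h3 : i + 2 = (j : ℕ) <;> simp [r1d_u, mon, h3]
        simp only [sg, Bool.false_eq_true, if_false, h4]
        show Multiplicative.ofAdd ((xp (- r1d_u c s ⟨i, h⟩) : L (c.1 + s + 2)) • (-(gen (i + 2) : r1d_N c s))) = _
        rw [smul_neg, neg_smul, one_smul]
      · rw [r1d_F_true c i h, FreeGroup.lift_apply_of]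
        simp only [if_true]
        rw [r1d_nu_cons, r1d_nu_nil, add_zero]
        simp only [sg, if_true, mon_nil, xp_zero, one_smul]
        rfl
    · rw [r1d_F_big c p h, map_one]
      have h5 : (gen (p.1 + 2) : r1d_N c s) = 0 := gen_of_le (by omega)
      have h6 : r1d_nu c s [if p.2 then (p.1 + 2, true, []) else (p.1 + 2, false, [(p.1 + 2, false)])] = 0 := by
        rw [r1d_nu_cons, r1d_nu_nil, add_zero]
        cases p.2
        · simp only [Bool.false_eq_true, if_false]; rw [h5, smul_zero, smul_zero]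
        · simp only [if_true]; rw [h5, smul_zero, smul_zero]
      rw [h6]; rfl




theorem r1d_gen_word (c : GCode) (s : ℕ) (w : Word) (hw : w ∈ c.2) (i : ℕ) (hi : i < c.1 + 2) :
    (xp (mon (c.1 + s + 2) (sh 2 w)) : L (c.1 + s + 2)) • (gen i : r1d_N c s) = gen i := by
  have h := r1d_nu_rel c s _ (r1d_mem2 c s w hw i hi)
  rw [r1d_nu_cons, r1d_nu_cons, r1d_nu_nil, add_zero] at h
  simp only [sg, if_true, Bool.false_eq_true, if_false, mon_nil, xp_zero, one_smul, neg_smul] at h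
  exact eq_of_sub_eq_zero (by rw [sub_eq_add_neg]; exact h)

theorem r1d_comm1 (c : GCode) (s : ℕ) (a b : r1d_H c s) (ha : a.right = 1) (hb : b.right = 1) :
    ⁅a, b⁆ = 1 := by
  rw [commutatorElement_eq_one_iff_mul_comm]
  apply SemidirectProduct.ext
  · rw [SemidirectProduct.mul_left, SemidirectProduct.mul_left, ha, hb]
    exact mul_comm _ _
  · rw [SemidirectProduct.mul_right, SemidirectProduct.mul_right, ha, hb]

theorem r1d_kill2 (c : GCode) (s : ℕ) (w : FreeGroup (Fin c.1))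
    (hw : w ∈ derivedSeries (FreeGroup (Fin c.1)) 2) : FreeGroup.lift (r1d_h c s) w = 1 := by
  have h1 : ∀ x ∈ derivedSeries (FreeGroup (Fin c.1)) 1, (FreeGroup.lift (r1d_h c s) x).right = 1 := by
    intro x hx
    rw [derivedSeries_one] at hx
    rw [r1d_right]
    have := Abelianization.commutator_subset_ker
      (FreeGroup.lift (fun i => Multiplicative.ofAdd (r1d_u c s i))) hx
    rw [MonoidHom.mem_ker] at this
    rw [this, map_one]
  have h2 : derivedSeries (FreeGroup (Fin c.1)) 2 ≤ (FreeGroup.lift (r1d_h c s)).ker := by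
    rw [derivedSeries_succ, Subgroup.commutator_le]
    intro a ha b hb
    rw [MonoidHom.mem_ker, map_commutatorElement]
    exact r1d_comm1 c s _ _ (h1 a ha) (h1 b hb)
  exact h2 hw

theorem r1d_kill (c : GCode) (s : ℕ) :
    ∀ r ∈ ({r : FreeGroup (Fin c.1) | ∃ w ∈ c.2,
        r = FreeGroup.lift
          (fun i : ℕ => if h : i < c.1 then FreeGroup.of (⟨i, h⟩ : Fin c.1) else 1)
          (FreeGroup.mk w)} ∪
      (derivedSeries (FreeGroup (Fin c.1)) 2 : Set (FreeGroup (Fin c.1)))),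
      FreeGroup.lift (r1d_h c s) r = 1 := by
  rintro r (⟨w, hw, rfl⟩ | hr)
  · show FreeGroup.lift (r1d_h c s) (r1d_F c w) = 1
    apply SemidirectProduct.ext
    · rw [r1d_left_word, r1d_nu_rel c s _ (r1d_mem1 c s w hw)]; rfl
    · apply MulEquiv.ext
      intro m
      rw [r1d_act_word, r1d_triv c s _ (fun i hi => r1d_gen_word c s w hw i hi)]
      rfl
  · exact r1d_kill2 c s r hr

/-- the homomorphism to the holomorph -/
noncomputable def r1d_hom (c : GCode) (s : ℕ) : MG c →* r1d_H c s := PresentedGroup.toGroup (r1d_kill c s)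

theorem r1d_hom_of (c : GCode) (s : ℕ) (i : Fin c.1) :
    r1d_hom c s (PresentedGroup.of i) = r1d_h c s i := PresentedGroup.toGroup.of _

theorem r1d_hom_mk (c : GCode) (s : ℕ) (w : FreeGroup (Fin c.1)) :
    r1d_hom c s (PresentedGroup.mk _ w) = FreeGroup.lift (r1d_h c s) w := rfl

theorem r1d_hom_right (c : GCode) (s : ℕ) (g : MG c) :
    ∃ u, (r1d_hom c s g).right = acM (c.1 + s + 2) (r1d_N c s) u := by
  obtain ⟨w, rfl⟩ := PresentedGroup.mk_surjective _ g
  rw [r1d_hom_mk, r1d_right]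
  exact ⟨_, rfl⟩

theorem r1d_comm2 (c : GCode) (s : ℕ) (g : MG c) (hg : g ∈ commutator (MG c)) :
    (SemidirectProduct.rightHom.comp (r1d_hom c s)) g = 1 := by
  have h : commutator (MG c) ≤ (SemidirectProduct.rightHom.comp (r1d_hom c s)).ker := by
    rw [commutator_def, Subgroup.commutator_le]
    intro a _ b _
    rw [MonoidHom.mem_ker, map_commutatorElement, commutatorElement_eq_one_iff_mul_comm]
    obtain ⟨u, hu⟩ := r1d_hom_right c s a
    obtain ⟨v, hv⟩ := r1d_hom_right c s b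
    show (r1d_hom c s a).right * (r1d_hom c s b).right = (r1d_hom c s b).right * (r1d_hom c s a).right
    rw [hu, hv, ← map_mul, ← map_mul, mul_comm]
  exact h hg

/-- the action of the abelianization -/
noncomputable def r1d_tau (c : GCode) (s : ℕ) : Abelianization (MG c) →* MulAut (Multiplicative (r1d_N c s)) :=
  QuotientGroup.lift (commutator (MG c)) (SemidirectProduct.rightHom.comp (r1d_hom c s)) (r1d_comm2 c s)

theorem r1d_tau_of (c : GCode) (s : ℕ) (g : MG c) :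
    r1d_tau c s (Abelianization.of g) = (r1d_hom c s g).right := rfl

/-- the action, additive -/
noncomputable def r1d_ta (c : GCode) (s : ℕ) (q : Abelianization (MG c)) : r1d_N c s →+ r1d_N c s where
  toFun m := Multiplicative.toAdd (r1d_tau c s q (Multiplicative.ofAdd m))
  map_zero' := by rw [ofAdd_zero, map_one]; rfl
  map_add' m m' := by rw [ofAdd_add, map_mul]; rfl

theorem r1d_ta_one (c : GCode) (s : ℕ) (m : r1d_N c s) : r1d_ta c s 1 m = m := by
  show Multiplicative.toAdd (r1d_tau c s 1 (Multiplicative.ofAdd m)) = m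
  rw [map_one]; rfl

theorem r1d_ta_mul (c : GCode) (s : ℕ) (q q' : Abelianization (MG c)) (m : r1d_N c s) :
    r1d_ta c s (q * q') m = r1d_ta c s q (r1d_ta c s q' m) := by
  show Multiplicative.toAdd (r1d_tau c s (q * q') (Multiplicative.ofAdd m)) = _
  rw [map_mul]; rfl

theorem r1d_ta_ex (c : GCode) (s : ℕ) (q : Abelianization (MG c)) :
    ∃ u : Fin (c.1 + s + 2) → ℤ, ∀ m : r1d_N c s, r1d_ta c s q m = (xp u : L (c.1 + s + 2)) • m := by
  obtain ⟨g, rfl⟩ := QuotientGroup.mk_surjective q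
  obtain ⟨u, hu⟩ := r1d_hom_right c s g
  refine ⟨Multiplicative.toAdd u, fun m => ?_⟩
  show Multiplicative.toAdd ((r1d_hom c s g).right (Multiplicative.ofAdd m)) = _
  rw [hu, r1d_ac]; rfl

theorem r1d_ta_smul (c : GCode) (s : ℕ) (q : Abelianization (MG c)) (a : L (c.1 + s + 2)) (m : r1d_N c s) :
    r1d_ta c s q (a • m) = a • r1d_ta c s q m := by
  obtain ⟨u, hu⟩ := r1d_ta_ex c s q
  rw [hu, hu, smul_comm]

theorem r1d_ta_gen (c : GCode) (s : ℕ) (i : Fin c.1) (m : r1d_N c s) :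
    r1d_ta c s (Abelianization.of (PresentedGroup.of i)) m = (xp (r1d_u c s i) : L (c.1 + s + 2)) • m := by
  show Multiplicative.toAdd ((r1d_hom c s (PresentedGroup.of i)).right (Multiplicative.ofAdd m)) = _
  rw [r1d_hom_of]; rfl

theorem r1d_ta_qv (c : GCode) (s : ℕ) (v : Fin (c.1 + s) → ℤ) (m : r1d_N c s) :
    r1d_ta c s (qv c s v) m = (xp (fr 0 0 v) : L (c.1 + s + 2)) • m := by
  let S : AddSubgroup (Fin (c.1 + s) → ℤ) :=
    { carrier := {v | ∀ m : r1d_N c s, r1d_ta c s (qv c s v) m = (xp (fr 0 0 v) : L (c.1 + s + 2)) • m}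
      zero_mem' := by
        intro m
        have h0 : (fr 0 0 (0 : Fin (c.1 + s) → ℤ)) = 0 := by
          have := r1d_fr_smul (k := c.1 + s) 0 0 0 0
          simpa using this
        rw [r1d_qv_zero, r1d_ta_one, h0, xp_zero, one_smul]
      add_mem' := by
        intro a b ha hb m
        rw [r1d_qv_add, r1d_ta_mul, hb, ha, smul_smul, ← xp_add, ← r1d_fr_add, add_zero]
      neg_mem' := by
        intro a ha m
        have h1 := r1d_qv_add c s (-a) a
        rw [neg_add_cancel, r1d_qv_zero] at h1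
        have h2 : r1d_ta c s (qv c s (-a)) ((xp (fr 0 0 a) : L (c.1 + s + 2)) • m) = m := by
          rw [← ha, ← r1d_ta_mul, ← h1, r1d_ta_one]
        rw [r1d_ta_smul] at h2
        have h3 : fr 0 0 (-a) = -(fr 0 0 a) := by
          have := r1d_fr_smul (k := c.1 + s) (-1) 0 0 a
          simpa using this
        rw [h3]
        conv_rhs => rw [← h2]
        rw [smul_smul, ← xp_add, neg_add_cancel, xp_zero, one_smul] }
  have hS : ∀ j : Fin (c.1 + s), Pi.single j 1 ∈ S := by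
    intro j m
    have h1 : (Pi.single j 1 : Fin (c.1 + s) → ℤ) = mon (c.1 + s) [((j : ℕ), true)] :=
      (mon_single _ _ j.2).symm
    rw [h1, r1d_qv_letter, ← r1d_mon_one]
    by_cases hj : (j : ℕ) < c.1
    · rw [r1d_lt_of c j hj, r1d_ta_gen]; rfl
    · rw [r1d_lt_big c ((j : ℕ), true) hj, map_one, r1d_ta_one, r1d_extra c s ((j : ℕ), true) hj]
  have hv : v ∈ S := by
    have : v = ∑ j, v j • (Pi.single j 1 : Fin (c.1 + s) → ℤ) := by
      funext i
      simp [Finset.sum_apply, Pi.single_apply]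
    rw [this]
    exact S.sum_mem (fun j _ => S.zsmul_mem (hS j) _)
  exact hv m

theorem r1d_qv_surj (c : GCode) (s : ℕ) (q : Abelianization (MG c)) : ∃ v, qv c s v = q := by
  obtain ⟨g, rfl⟩ := QuotientGroup.mk_surjective q
  let S : Subgroup (MG c) :=
    { carrier := {g | ∃ v, qv c s v = Abelianization.of g}
      one_mem' := ⟨0, by rw [r1d_qv_zero, map_one]⟩
      mul_mem' := by
        rintro a b ⟨v, hv⟩ ⟨w, hw⟩
        exact ⟨v + w, by rw [r1d_qv_add, hv, hw, map_mul]⟩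
      inv_mem' := by
        rintro a ⟨v, hv⟩
        refine ⟨-v, ?_⟩
        have h1 := r1d_qv_add c s (-v) v
        rw [neg_add_cancel, r1d_qv_zero, hv] at h1
        rw [map_inv]
        exact eq_inv_of_mul_eq_one_left h1.symm }
  have hS : S = ⊤ := by
    rw [eq_top_iff, ← PresentedGroup.closure_range_of, Subgroup.closure_le]
    rintro _ ⟨i, rfl⟩
    refine ⟨mon (c.1 + s) [((i : ℕ), true)], ?_⟩
    rw [r1d_qv_letter, r1d_lt_of c i i.2]
  have : g ∈ S := by rw [hS]; trivial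
  exact this

/-- the derivation -/
noncomputable def r1d_de (c : GCode) (s : ℕ) (g : MG c) : r1d_N c s := Multiplicative.toAdd (r1d_hom c s g).left

theorem r1d_de_mul (c : GCode) (s : ℕ) (g h : MG c) :
    r1d_de c s (g * h) = r1d_de c s g + r1d_ta c s (Abelianization.of g) (r1d_de c s h) := by
  unfold r1d_de
  rw [map_mul, SemidirectProduct.mul_left]; rfl

theorem r1d_de_of (c : GCode) (s : ℕ) (i : Fin c.1) :
    r1d_de c s (PresentedGroup.of i) = gen ((i : ℕ) + 2) := by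
  unfold r1d_de
  rw [r1d_hom_of]; rfl



/-- the maps of the two copies of the group ring -/
noncomputable def r1d_f (c : GCode) (s j : ℕ) : ZQ (MG c) →+ r1d_N c s :=
  r1d_za (fun q => r1d_ta c s q (gen j))

theorem r1d_f_single (c : GCode) (s j : ℕ) (q : Abelianization (MG c)) (z : ℤ) :
    r1d_f c s j (MonoidAlgebra.single q z) = z • r1d_ta c s q (gen j) := r1d_za_single _ _ _

theorem r1d_f_q (c : GCode) (s j : ℕ) (q : Abelianization (MG c)) :
    r1d_f c s j (r1d_q q) = r1d_ta c s q (gen j) := by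
  rw [r1d_q, r1d_f_single, one_smul]

theorem r1d_f_mul (c : GCode) (s j : ℕ) (q : Abelianization (MG c)) (x : ZQ (MG c)) :
    r1d_f c s j (r1d_q q * x) = r1d_ta c s q (r1d_f c s j x) := by
  have : (r1d_f c s j).comp (AddMonoidHom.mulLeft (r1d_q q)) = (r1d_ta c s q).comp (r1d_f c s j) := by
    apply MonoidAlgebra.addMonoidHom_ext
    intro q' z
    show r1d_f c s j (r1d_q q * MonoidAlgebra.single q' z) = r1d_ta c s q (r1d_f c s j (MonoidAlgebra.single q' z))
    rw [r1d_q, MonoidAlgebra.single_mul_single, one_mul, r1d_f_single, r1d_f_single, r1d_ta_mul, map_zsmul]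
  exact DFunLike.congr_fun this x

theorem r1d_f_fix (c : GCode) (s j : ℕ) (u : Fin (c.1 + s + 2) → ℤ)
    (h : (xp u : L (c.1 + s + 2)) • (gen j : r1d_N c s) = gen j) (x : ZQ (MG c)) :
    (xp u : L (c.1 + s + 2)) • r1d_f c s j x = r1d_f c s j x := by
  have : (DistribSMul.toAddMonoidHom (r1d_N c s) (xp u : L (c.1 + s + 2))).comp (r1d_f c s j) =
      r1d_f c s j := by
    apply MonoidAlgebra.addMonoidHom_ext
    intro q' z
    show (xp u : L (c.1 + s + 2)) • (r1d_f c s j (MonoidAlgebra.single q' z)) = _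
    rw [r1d_f_single, smul_comm, ← r1d_ta_smul, h]
  exact DFunLike.congr_fun this x

theorem r1d_f_0 (c : GCode) (s : ℕ) (x : ZQ (MG c)) :
    (xp (fr 0 1 0) : L (c.1 + s + 2)) • r1d_f c s 0 x = r1d_f c s 0 x + r1d_f c s 1 x := by
  have hg : (xp (fr 0 1 0) : L (c.1 + s + 2)) • (gen 0 : r1d_N c s) = gen 0 + gen 1 := by
    have h := r1d_nu_rel c s _ (r1d_mem6 c s _ (Or.inr (Or.inr (Or.inl rfl))))
    rw [r1d_nu_cons, r1d_nu_cons, r1d_nu_cons, r1d_nu_nil, add_zero] at h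
    simp only [sg, if_true, Bool.false_eq_true, if_false, mon_nil, xp_zero, one_smul, neg_smul] at h
    rw [← r1d_hy2]
    exact eq_of_sub_eq_zero (by rw [sub_eq_add_neg, neg_add]; exact h)
  have : (DistribSMul.toAddMonoidHom (r1d_N c s) (xp (fr 0 1 0) : L (c.1 + s + 2))).comp (r1d_f c s 0) =
      r1d_f c s 0 + r1d_f c s 1 := by
    apply MonoidAlgebra.addMonoidHom_ext
    intro q' z
    show (xp (fr 0 1 0) : L (c.1 + s + 2)) • (r1d_f c s 0 (MonoidAlgebra.single q' z)) =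
      r1d_f c s 0 (MonoidAlgebra.single q' z) + r1d_f c s 1 (MonoidAlgebra.single q' z)
    rw [r1d_f_single, r1d_f_single, smul_comm, ← r1d_ta_smul, hg, map_add, smul_add]
  exact DFunLike.congr_fun this x

theorem r1d_y1_0 (c : GCode) (s : ℕ) :
    (xp (fr 1 0 0) : L (c.1 + s + 2)) • (gen 0 : r1d_N c s) = gen 0 := by
  have h := r1d_eqnN c s 0 0 1 (r1d_mem6 c s _ (Or.inl rfl))
  rwa [r1d_hy1, one_smul] at h

theorem r1d_y1_1 (c : GCode) (s : ℕ) :
    (xp (fr 1 0 0) : L (c.1 + s + 2)) • (gen 1 : r1d_N c s) = gen 1 := by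
  have h := r1d_eqnN c s 0 1 1 (r1d_mem6 c s _ (Or.inr (Or.inl rfl)))
  rwa [r1d_hy1, one_smul] at h

theorem r1d_y2_1 (c : GCode) (s : ℕ) :
    (xp (fr 0 1 0) : L (c.1 + s + 2)) • (gen 1 : r1d_N c s) = gen 1 := by
  have h := r1d_eqnN c s 1 1 1 (r1d_mem6 c s _ (Or.inr (Or.inr (Or.inr rfl))))
  rwa [r1d_hy2, one_smul] at h

/-- the first framed variable on the derivation -/
theorem r1d_y1_de (c : GCode) (s : ℕ) (g : MG c) :
    (xp (fr 1 0 0) : L (c.1 + s + 2)) • r1d_de c s g =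
      r1d_de c s g + r1d_ta c s (Abelianization.of g) (gen 1) - gen 1 := by
  refine r1d_der_ext (PresentedGroup.of : Fin c.1 → MG c) (PresentedGroup.closure_range_of _)
    (fun g => r1d_ta c s (Abelianization.of g))
    (fun g => (xp (fr 1 0 0) : L (c.1 + s + 2)) • r1d_de c s g)
    (fun g => r1d_de c s g + r1d_ta c s (Abelianization.of g) (gen 1) - gen 1) ?_ ?_ ?_ ?_ g
  · intro g h
    rw [r1d_de_mul, smul_add, r1d_ta_smul]
  · intro g h
    rw [r1d_de_mul, map_mul, r1d_ta_mul, map_sub, map_add]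
    abel
  · intro i
    rw [r1d_de_of, r1d_ta_gen]
    have h := r1d_nu_rel c s _ (r1d_mem4 c s i i.2)
    rw [r1d_nu_cons, r1d_nu_cons, r1d_nu_cons, r1d_nu_cons, r1d_nu_nil, add_zero] at h
    simp only [sg, if_true, Bool.false_eq_true, if_false, mon_nil, xp_zero, one_smul, neg_smul] at h
    rw [← r1d_hy1]
    rw [← sub_eq_zero, ← h]
    unfold r1d_u
    abel
  · intro b
    rw [map_one, r1d_ta_one]

theorem r1d_y2_de (c : GCode) (s : ℕ) (g : MG c) :
    (xp (fr 0 1 0) : L (c.1 + s + 2)) • r1d_de c s g = r1d_de c s g := by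
  refine r1d_der_ext (PresentedGroup.of : Fin c.1 → MG c) (PresentedGroup.closure_range_of _)
    (fun g => r1d_ta c s (Abelianization.of g))
    (fun g => (xp (fr 0 1 0) : L (c.1 + s + 2)) • r1d_de c s g)
    (fun g => r1d_de c s g) ?_ ?_ ?_ ?_ g
  · intro g h
    rw [r1d_de_mul, smul_add, r1d_ta_smul]
  · intro g h
    exact r1d_de_mul c s g h
  · intro i
    rw [r1d_de_of]
    have h := r1d_eqnN c s 1 (i + 2) 1 (r1d_mem5 c s i i.2)
    rwa [r1d_hy2, one_smul] at h
  · intro b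
    rw [map_one, r1d_ta_one]

/-- the action of the abelianization on the model -/
noncomputable def r1d_tq (c : GCode) (q : Abelianization (MG c)) : r1d_B c →+ r1d_B c where
  toFun x := (r1d_q q • x.1, r1d_q q * x.2.1, r1d_q q * x.2.2)
  map_zero' := by simp
  map_add' x y := by
    ext1
    · exact smul_add _ _ _
    · ext1
      · exact mul_add _ _ _
      · exact mul_add _ _ _

theorem r1d_f_ta (c : GCode) (s : ℕ) (f : r1d_N c s →+ r1d_B c)
    (hf : ∀ v m, f (xp v • m) = r1d_rho c s v (f m)) (q : Abelianization (MG c)) (m : r1d_N c s) :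
    f (r1d_ta c s q m) = r1d_tq c q (f m) := by
  obtain ⟨v, rfl⟩ := r1d_qv_surj c s q
  rw [r1d_ta_qv, hf, r1d_rho_fr, zero_smul, zero_smul, add_zero, add_zero]
  rfl

theorem r1d_f_de (c : GCode) (s : ℕ) (f : r1d_N c s →+ r1d_B c)
    (hf0 : ∀ i, i < c.1 + 2 → f (gen i) = r1d_beta c i)
    (hf : ∀ v m, f (xp v • m) = r1d_rho c s v (f m)) (g : MG c) :
    f (r1d_de c s g) = (dd g, 0, 0) := by
  refine r1d_der_ext (PresentedGroup.of : Fin c.1 → MG c) (PresentedGroup.closure_range_of _)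
    (fun g => r1d_tq c (Abelianization.of g)) (fun g => f (r1d_de c s g))
    (fun g => ((dd g, 0, 0) : r1d_B c)) ?_ ?_ ?_ ?_ g
  · intro g h
    rw [r1d_de_mul, map_add, r1d_f_ta c s f hf]
  · intro g h
    rw [dd_mul, r1d_qq]
    ext1
    · rfl
    · ext1
      · show (0 : ZQ (MG c)) = 0 + r1d_q (Abelianization.of g) * 0
        rw [mul_zero, add_zero]
      · show (0 : ZQ (MG c)) = 0 + r1d_q (Abelianization.of g) * 0
        rw [mul_zero, add_zero]
  · intro i
    rw [r1d_de_of, hf0 _ (by have := i.2; omega), r1d_beta2 c i i.2]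
  · intro b
    rw [map_one]
    show (r1d_q 1 • b.1, r1d_q 1 * b.2.1, r1d_q 1 * b.2.2) = b
    rw [r1d_q_one, one_smul, one_mul, one_mul]

/-- the map back -/
noncomputable def r1d_psi (c : GCode) (s : ℕ) (fA : AG (MG c) →+ r1d_N c s) : r1d_B c →+ r1d_N c s :=
  fA.coprod ((r1d_f c s 0).coprod (r1d_f c s 1))

theorem r1d_psi_apply (c : GCode) (s : ℕ) (fA : AG (MG c) →+ r1d_N c s) (x : r1d_B c) :
    r1d_psi c s fA x = fA x.1 + (r1d_f c s 0 x.2.1 + r1d_f c s 1 x.2.2) := rfl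

theorem r1d_y1_A (c : GCode) (s : ℕ) (fA : AG (MG c) →+ r1d_N c s)
    (h1 : ∀ g, fA (dd g) = r1d_de c s g)
    (h2 : ∀ q m, fA ((MonoidAlgebra.single q (1 : ℤ) : ZQ (MG c)) • m) = r1d_ta c s q (fA m)) (a : AG (MG c)) :
    (xp (fr 1 0 0) : L (c.1 + s + 2)) • fA a = fA a + r1d_f c s 1 (bd (MG c) a) := by
  have : (DistribSMul.toAddMonoidHom (r1d_N c s) (xp (fr 1 0 0) : L (c.1 + s + 2))).comp fA =
      fA + (r1d_f c s 1).comp (bd (MG c)).toAddMonoidHom := by
    apply ag_ext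
    intro q g
    show (xp (fr 1 0 0) : L (c.1 + s + 2)) • fA ((MonoidAlgebra.single q (1 : ℤ) : ZQ (MG c)) • dd g) =
      fA ((MonoidAlgebra.single q (1 : ℤ) : ZQ (MG c)) • dd g) +
        r1d_f c s 1 (bd (MG c) ((MonoidAlgebra.single q (1 : ℤ) : ZQ (MG c)) • dd g))
    rw [h2, h1, LinearMap.map_smul, bd_dd, smul_eq_mul, ← r1d_ta_smul, r1d_y1_de]
    have h3 : r1d_f c s 1 ((MonoidAlgebra.single q (1 : ℤ) : ZQ (MG c)) * (qq g - 1)) =
        r1d_ta c s q (r1d_f c s 1 (qq g - 1)) := r1d_f_mul c s 1 q _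
    rw [h3, ← map_add]
    congr 1
    rw [map_sub, r1d_qq, r1d_f_q, ← r1d_q_one, r1d_f_q, r1d_ta_one]
    abel
  exact DFunLike.congr_fun this a

theorem r1d_y2_A (c : GCode) (s : ℕ) (fA : AG (MG c) →+ r1d_N c s)
    (h1 : ∀ g, fA (dd g) = r1d_de c s g)
    (h2 : ∀ q m, fA ((MonoidAlgebra.single q (1 : ℤ) : ZQ (MG c)) • m) = r1d_ta c s q (fA m)) (a : AG (MG c)) :
    (xp (fr 0 1 0) : L (c.1 + s + 2)) • fA a = fA a := by
  have : (DistribSMul.toAddMonoidHom (r1d_N c s) (xp (fr 0 1 0) : L (c.1 + s + 2))).comp fA = fA := by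
    apply ag_ext
    intro q g
    show (xp (fr 0 1 0) : L (c.1 + s + 2)) • fA ((MonoidAlgebra.single q (1 : ℤ) : ZQ (MG c)) • dd g) =
      fA ((MonoidAlgebra.single q (1 : ℤ) : ZQ (MG c)) • dd g)
    rw [h2, h1, ← r1d_ta_smul, r1d_y2_de]
  exact DFunLike.congr_fun this a

theorem r1d_psi_rho (c : GCode) (s : ℕ) (fA : AG (MG c) →+ r1d_N c s)
    (h1 : ∀ g, fA (dd g) = r1d_de c s g)
    (h2 : ∀ q m, fA ((MonoidAlgebra.single q (1 : ℤ) : ZQ (MG c)) • m) = r1d_ta c s q (fA m))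
    (v : Fin (c.1 + s + 2) → ℤ) (x : r1d_B c) :
    r1d_psi c s fA (r1d_rho c s v x) = (xp v : L (c.1 + s + 2)) • r1d_psi c s fA x := by
  have hv : v = fr 0 0 (fun i => v i.succ.succ) + (v 0 • fr 1 0 0 + v 1 • fr 0 1 0) := by
    rw [← r1d_fr_smul, ← r1d_fr_smul, ← r1d_fr_add, ← r1d_fr_add]
    simp only [mul_one, mul_zero, add_zero, zero_add, smul_zero]
    exact (r1d_fr_eta v).symm
  have hA : ∀ a, (xp (v 0 • fr 1 0 0 + v 1 • fr 0 1 0) : L (c.1 + s + 2)) • fA a =
      fA a + v 0 • r1d_f c s 1 (bd (MG c) a) := by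
    intro a
    rw [xp_add, mul_smul, r1d_fix _ _ (r1d_y2_A c s fA h1 h2 a),
      r1d_unip _ _ _ (r1d_y1_A c s fA h1 h2 a) (r1d_f_fix c s 1 _ (r1d_y1_1 c s) _)]
  have hG : ∀ y, (xp (v 0 • fr 1 0 0 + v 1 • fr 0 1 0) : L (c.1 + s + 2)) • r1d_f c s 1 y = r1d_f c s 1 y := by
    intro y
    rw [xp_add, mul_smul, r1d_fix _ _ (r1d_f_fix c s 1 _ (r1d_y2_1 c s) _),
      r1d_fix _ _ (r1d_f_fix c s 1 _ (r1d_y1_1 c s) _)]
  have hF : ∀ y, (xp (v 0 • fr 1 0 0 + v 1 • fr 0 1 0) : L (c.1 + s + 2)) • r1d_f c s 0 y =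
      r1d_f c s 0 y + v 1 • r1d_f c s 1 y := by
    intro y
    rw [xp_add, mul_smul, r1d_unip _ _ _ (r1d_f_0 c s y) (r1d_f_fix c s 1 _ (r1d_y2_1 c s) _),
      smul_add, r1d_fix _ _ (r1d_f_fix c s 0 _ (r1d_y1_0 c s) _), smul_comm,
      r1d_fix _ _ (r1d_f_fix c s 1 _ (r1d_y1_1 c s) _)]
  have hX : (xp (v 0 • fr 1 0 0 + v 1 • fr 0 1 0) : L (c.1 + s + 2)) • r1d_psi c s fA x =
      (fA x.1 + v 0 • r1d_f c s 1 (bd (MG c) x.1)) +
        ((r1d_f c s 0 x.2.1 + v 1 • r1d_f c s 1 x.2.1) + r1d_f c s 1 x.2.2) := by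
    rw [r1d_psi_apply c s fA x, smul_add, smul_add, hA, hG, hF]
  conv_rhs => rw [hv]
  rw [xp_add, mul_smul, hX, ← r1d_ta_qv]
  rw [r1d_psi_apply]
  show fA (r1d_q (qv c s (fun i => v i.succ.succ)) • x.1) +
    (r1d_f c s 0 (r1d_q (qv c s (fun i => v i.succ.succ)) * x.2.1) +
     r1d_f c s 1 (r1d_q (qv c s (fun i => v i.succ.succ)) * (x.2.2 + v 0 • bd (MG c) x.1 + v 1 • x.2.1))) = _
  rw [r1d_f_mul, r1d_f_mul]
  have h3 : fA (r1d_q (qv c s (fun i => v i.succ.succ)) • x.1) =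
      r1d_ta c s (qv c s (fun i => v i.succ.succ)) (fA x.1) := h2 _ _
  rw [h3]
  simp only [map_add, map_zsmul]
  abel

theorem r1d_tq_0 (c : GCode) (q : Abelianization (MG c)) : r1d_tq c q (0, 1, 0) = (0, r1d_q q, 0) := by
  show (r1d_q q • 0, r1d_q q * 1, r1d_q q * 0) = _
  rw [smul_zero, mul_one, mul_zero]

theorem r1d_tq_1 (c : GCode) (q : Abelianization (MG c)) : r1d_tq c q (0, 0, 1) = (0, 0, r1d_q q) := by
  show (r1d_q q • 0, r1d_q q * 0, r1d_q q * 1) = _
  rw [smul_zero, mul_one, mul_zero]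

theorem r1d_tq_d (c : GCode) (q : Abelianization (MG c)) (a : AG (MG c)) :
    r1d_tq c q (a, 0, 0) = (r1d_q q • a, 0, 0) := by
  show (r1d_q q • a, r1d_q q * 0, r1d_q q * 0) = _
  rw [mul_zero]

theorem r1d_z0 {A R : Type*} [AddCommGroup A] [Ring R] (z : ℤ) (x : R) :
    z • ((0, x, 0) : A × R × R) = (0, z • x, 0) := by simp

theorem r1d_z1 {A R : Type*} [AddCommGroup A] [Ring R] (z : ℤ) (x : R) :
    z • ((0, 0, x) : A × R × R) = (0, 0, z • x) := by simp

theorem r1d_zq {G : Type*} [Group G] (z : ℤ) (q : Abelianization G) :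
    z • (r1d_q q : ZQ G) = MonoidAlgebra.single q z := by
  rw [r1d_q, MonoidAlgebra.smul_single, smul_eq_mul, mul_one]

theorem r1d_psi_gen (c : GCode) (s : ℕ) (fA : AG (MG c) →+ r1d_N c s)
    (h1 : ∀ g, fA (dd g) = r1d_de c s g) (i : ℕ) (hi : i < c.1 + 2) :
    r1d_psi c s fA (r1d_beta c i) = gen i := by
  match i, hi with
  | 0, _ =>
    rw [r1d_psi_apply, r1d_beta]
    show fA 0 + (r1d_f c s 0 1 + r1d_f c s 1 0) = gen 0
    rw [map_zero, map_zero, zero_add, add_zero, ← r1d_q_one, r1d_f_q, r1d_ta_one]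
  | 1, _ =>
    rw [r1d_psi_apply, r1d_beta]
    show fA 0 + (r1d_f c s 0 0 + r1d_f c s 1 1) = gen 1
    rw [map_zero, map_zero, zero_add, zero_add, ← r1d_q_one, r1d_f_q, r1d_ta_one]
  | i + 2, hi =>
    rw [r1d_psi_apply, r1d_beta2 c i (by omega)]
    show fA (dd (PresentedGroup.of ⟨i, _⟩)) + (r1d_f c s 0 0 + r1d_f c s 1 0) = gen (i + 2)
    rw [map_zero, map_zero, add_zero, add_zero, h1, r1d_de_of]

theorem r1d_left (c : GCode) (s : ℕ) (f : r1d_N c s →+ r1d_B c)
    (hf0 : ∀ i, i < c.1 + 2 → f (gen i) = r1d_beta c i)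
    (hf : ∀ v m, f (xp v • m) = r1d_rho c s v (f m)) (fA : AG (MG c) →+ r1d_N c s)
    (h1 : ∀ g, fA (dd g) = r1d_de c s g)
    (h2 : ∀ q m, fA ((MonoidAlgebra.single q (1 : ℤ) : ZQ (MG c)) • m) = r1d_ta c s q (fA m)) (m : r1d_N c s) :
    r1d_psi c s fA (f m) = m := by
  have : (r1d_psi c s fA).comp f = AddMonoidHom.id _ := by
    apply pm_ext
    intro v i hi
    show r1d_psi c s fA (f ((xp v : L (c.1 + s + 2)) • (gen i : r1d_N c s))) = xp v • gen i
    rw [hf, r1d_psi_rho c s fA h1 h2, hf0 i hi, r1d_psi_gen c s fA h1 i hi]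
  exact DFunLike.congr_fun this m

theorem r1d_eA (c : GCode) (s : ℕ) (f : r1d_N c s →+ r1d_B c)
    (hf0 : ∀ i, i < c.1 + 2 → f (gen i) = r1d_beta c i)
    (hf : ∀ v m, f (xp v • m) = r1d_rho c s v (f m)) (fA : AG (MG c) →+ r1d_N c s)
    (h1 : ∀ g, fA (dd g) = r1d_de c s g)
    (h2 : ∀ q m, fA ((MonoidAlgebra.single q (1 : ℤ) : ZQ (MG c)) • m) = r1d_ta c s q (fA m))
    (a : AG (MG c)) : f (fA a) = (a, 0, 0) := by
  have : f.comp fA = AddMonoidHom.inl (AG (MG c)) (ZQ (MG c) × ZQ (MG c)) := by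
    apply ag_ext
    intro q g
    show f (fA ((MonoidAlgebra.single q (1 : ℤ) : ZQ (MG c)) • dd g)) =
      ((MonoidAlgebra.single q (1 : ℤ) : ZQ (MG c)) • dd g, 0)
    rw [h2, h1, r1d_f_ta c s f hf, r1d_f_de c s f hf0 hf, r1d_tq_d]
    rfl
  exact DFunLike.congr_fun this a

theorem r1d_eF (c : GCode) (s : ℕ) (f : r1d_N c s →+ r1d_B c)
    (hf0 : ∀ i, i < c.1 + 2 → f (gen i) = r1d_beta c i)
    (hf : ∀ v m, f (xp v • m) = r1d_rho c s v (f m)) (y : ZQ (MG c)) :
    f (r1d_f c s 0 y) = (0, y, 0) := by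
  have : f.comp (r1d_f c s 0) = (AddMonoidHom.inr (AG (MG c)) (ZQ (MG c) × ZQ (MG c))).comp
      (AddMonoidHom.inl (ZQ (MG c)) (ZQ (MG c))) := by
    apply MonoidAlgebra.addMonoidHom_ext
    intro q z
    have e1 : f (r1d_f c s 0 (MonoidAlgebra.single q z)) = (0, MonoidAlgebra.single q z, 0) := by
      rw [r1d_f_single, map_zsmul, r1d_f_ta c s f hf, hf0 0 (by omega), r1d_beta, r1d_tq_0, r1d_z0, r1d_zq]
    exact e1
  exact DFunLike.congr_fun this y

theorem r1d_eG (c : GCode) (s : ℕ) (f : r1d_N c s →+ r1d_B c)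
    (hf0 : ∀ i, i < c.1 + 2 → f (gen i) = r1d_beta c i)
    (hf : ∀ v m, f (xp v • m) = r1d_rho c s v (f m)) (y : ZQ (MG c)) :
    f (r1d_f c s 1 y) = (0, 0, y) := by
  have : f.comp (r1d_f c s 1) = (AddMonoidHom.inr (AG (MG c)) (ZQ (MG c) × ZQ (MG c))).comp
      (AddMonoidHom.inr (ZQ (MG c)) (ZQ (MG c))) := by
    apply MonoidAlgebra.addMonoidHom_ext
    intro q z
    have e1 : f (r1d_f c s 1 (MonoidAlgebra.single q z)) = (0, 0, MonoidAlgebra.single q z) := by
      rw [r1d_f_single, map_zsmul, r1d_f_ta c s f hf, hf0 1 (by omega), r1d_beta, r1d_tq_1, r1d_z1, r1d_zq]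
    exact e1
  exact DFunLike.congr_fun this y

theorem r1d_sum {A R : Type*} [AddCommGroup A] [Ring R] (a : A) (y z : R) :
    ((a, 0, 0) : A × R × R) + ((0, y, 0) + (0, 0, z)) = (a, y, z) := by simp

/-- R1d: `N = A(G) ⊕ ℤ[Q] f ⊕ ℤ[Q] g` -/
theorem r1d (c : GCode) (s : ℕ) :
    ∃ Φ : PM (c.1 + s + 2) (c.1 + 2) (metFr c s).2.2 ≃+ AG (MG c) × ZQ (MG c) × ZQ (MG c),
      ∀ (a b : ℤ) (v : Fin (c.1 + s) → ℤ) (m : PM (c.1 + s + 2) (c.1 + 2) (metFr c s).2.2),
        Φ (xp (fr a b v) • m) =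
        ((MonoidAlgebra.single (qv c s v) (1 : ℤ) : ZQ (MG c)) • (Φ m).1,
         (MonoidAlgebra.single (qv c s v) (1 : ℤ) : ZQ (MG c)) * (Φ m).2.1,
         (MonoidAlgebra.single (qv c s v) (1 : ℤ) : ZQ (MG c)) *
           ((Φ m).2.2 + a • bd (MG c) (Φ m).1 + b • (Φ m).2.1)) := by
  obtain ⟨f, hf0, hf⟩ := r1d_up c s
  obtain ⟨fA, h1, h2⟩ := upa (G := MG c) (r1d_ta c s) (r1d_ta_one c s) (r1d_ta_mul c s) (r1d_de c s)
    (r1d_de_mul c s)
  have hright : ∀ x, f (r1d_psi c s fA x) = x := by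
    intro x
    rw [r1d_psi_apply, map_add, map_add, r1d_eA c s f hf0 hf fA h1 h2, r1d_eF c s f hf0 hf,
      r1d_eG c s f hf0 hf]
    exact r1d_sum _ _ _
  refine ⟨{ toFun := f, invFun := r1d_psi c s fA, left_inv := r1d_left c s f hf0 hf fA h1 h2,
            right_inv := hright, map_add' := map_add f }, ?_⟩
  intro a b v m
  exact (hf (fr a b v) m).trans (r1d_rho_fr c s a b v (f m))

end Pool.Agent.MET
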